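import Pool.Agent.TH935.DF5
import Pool.Agent.Q319.DR.Fam

/-!
# Prime pairs in progressions: all even differences at the multiples of almost all real numbers

* For `0 < θ < 1` there is `κ₀ > 0` such that for all real `z ∈ [N ^ (1 - θ), 2 N ^ (1 - θ)]` outside a set of measure
  at most `N ^ (1 - θ - κ₀)` the asymptotic formula of the problem holds, at the height `X`, uniformly in the moduli and
  the classes, for ALL even differences in the windows of radius `log ^ A N` around the multiples `k z`, `k ≤ N ^ θ`,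
  with at most `N ^ θ / log ^ U N` exceptional `k`.
* For almost every real `α > 0` this holds for ALL even differences in the windows of radius `log ^ A (b k)` around the
  numbers `α b k`, for ALL large `k`; here `b` is an arbitrary sequence of integers with `b k ≥ exp (k ^ δ)`, for
  instance `b k = 2 ^ k`.

From Mathlib: `n.primeFactors`: the set of the prime divisors of `n`; `∫ t in (2 : ℝ)..y`: the integral; `volume`: the
Lebesgue measure; `∀ᵐ α : ℝ`: for almost all real `α`; `∀ᶠ k in atTop`: for all large `k`. The theorem about almost all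
differences is from the starting files (`Pool.Agent.TH935.DF.gd_fam`), as well as the count of the elements of
arbitrary sets of integers in intervals at multiples of real numbers (`Pool.Agent.H438R2.DL`).
-/

set_option autoImplicit false

namespace Pool.Agent.Results.MP_92ef0c_nt.DifferencesAtRealMultiples

open Finset MeasureTheory Filter

/-- The twin prime constant `C₂ = ∏_{p > 2} (1 - 1 / (p - 1) ^ 2)`: the infimum of the decreasing partial products
over the primes `3 ≤ p ≤ z`. -/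
noncomputable def C₂ : ℝ := ⨅ z : ℕ, ∏ p ∈ (Icc 3 z).filter Nat.Prime, (1 - 1 / ((p : ℝ) - 1) ^ 2)

open Classical in
/-- `π_d(y; a, q)`: the number of the primes `p ≤ y` with `p + d ≤ y` prime and `p ≡ a (mod q)`. (For even
`d > 0` such a prime `p` is automatically odd.) -/
noncomputable def pairs (d : ℕ) (y : ℝ) (a q : ℕ) : ℕ :=
  ((range (⌊y⌋₊ + 1)).filter (fun p => p.Prime ∧ (p + d).Prime ∧ (p : ℝ) + d ≤ y ∧ p ≡ a [MOD q])).card

/-- The main term `M_d(y; q)` of the problem. -/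
noncomputable def main (d : ℕ) (y : ℝ) (q : ℕ) : ℝ :=
  2 / (((range q).filter (fun α => Nat.Coprime α q ∧ Nat.Coprime (α + d) q)).card : ℝ) *
    (∏ p ∈ d.primeFactors.filter (fun p => 2 < p), ((p : ℝ) - 1) / ((p : ℝ) - 2)) * C₂ *
    ∫ t in (2 : ℝ)..y, 1 / Real.log t ^ 2

/-- The estimate of the problem for the difference `d` with the bound `X / (log X) ^ G`, for all `y ≤ X`, all moduli
`q ≤ (log X) ^ F` and all admissible classes `a`. -/
def Good (F G X d : ℕ) : Prop :=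
  ∀ q a : ℕ, 1 ≤ q → (q : ℝ) ≤ Real.log X ^ F → Nat.Coprime a q → Nat.Coprime (a + d) q →
    ∀ y : ℝ, 2 ≤ y → y ≤ X → |(pairs d y a q : ℝ) - main d y q| ≤ X / Real.log X ^ G

/-- The height `X` is suitable for differences of the size `N`. -/
def Height (G W N X : ℕ) : Prop := N ≤ X ∧ (N : ℝ) * Real.log X ^ (G + 6) ≤ X ∧ (X : ℝ) ≤ N * Real.log X ^ W

open Classical in
/-- The number of the `k` with `1 ≤ k ≤ x` for which not all even integers `d > 0` at a distance of at most `w` from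
`k z` have the property `P`. -/
noncomputable def exceptions (x z w : ℝ) (P : ℕ → Prop) : ℕ :=
  ((Icc 1 ⌊x⌋₊).filter (fun k : ℕ => ∃ d : ℕ, 0 < d ∧ Even d ∧ |(d : ℝ) - k * z| ≤ w ∧ ¬ P d)).card

lemma good_of (F G X d : ℕ) (hd0 : 0 < d) (hdev : Even d) (hgood : Pool.Agent.W93.PP.GoodD 0 F G X d) :
    Good F G X d := by
  intro q a hq1 hq2 ha had x hx2 hxX
  have h2 := hgood 0 q a (by simp) hq1 hq2 ha had hdev.two_dvd hd0.ne' x hx2 hxX
  have e1 : main (d + 0) x q =
      Pool.Agent.H560R3.GB.sing (d + 0) / Pool.Agent.W93.PP.Cnt q (d + 0) * Pool.Agent.W93.PP.Li2 x := by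
    unfold main Pool.Agent.H560R3.GB.sing Pool.Agent.W93.PP.Cnt Pool.Agent.W93.PP.Li2
    have e2 : C₂ = Pool.Agent.H560R3.GB.C₂ := rfl
    rw [e2]
    ring
  rw [← e1] at h2
  exact h2

lemma few (B F G W V : ℕ) : ∃ N₀ : ℕ, ∀ N : ℕ, N₀ ≤ N → ∀ X : ℕ, Height G W N X →
    ∀ S : Finset ℕ, S ⊆ Icc 1 (B * N) → (∀ d ∈ S, 0 < d ∧ Even d ∧ ¬ Good F G X d) →
      (S.card : ℝ) ≤ N / Real.log N ^ V := by
  classical
  obtain ⟨N₀, h0⟩ := Pool.Agent.TH935.DF.gd_fam 1 0 F G (V + 1) 0 (B + 1) W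
  obtain ⟨N₁, h1⟩ := Pool.Agent.Q319.DR.scale B V
  obtain ⟨N₂, h2⟩ := (tendsto_natCast_atTop_atTop.eventually (Pool.Agent.Q319.DR.ev_log B)).exists_forall_of_atTop
  refine ⟨N₀ + N₁ + N₂, fun N hN X hX S hS hSb => ?_⟩
  have hlogB := h2 N (by omega)
  obtain ⟨g1, g2, g3, g4⟩ := h1 N (by omega)
  obtain ⟨hX0, hX1, hX2⟩ := hX
  have hlog0 : 0 < Real.log N := by linarith
  rcases Nat.eq_zero_or_pos B with hB | hB
  · subst hB
    rw [zero_mul, Icc_eq_empty (by norm_num), subset_empty] at hS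
    rw [hS, card_empty, Nat.cast_zero]
    positivity
  have h2 := h0 N (by omega) (B * N) (fun m => (m : ℤ)) (fun m hm => by
      rw [mem_Icc] at hm
      rw [abs_of_nonneg (Int.natCast_nonneg m)]
      have h3 : m ≤ (B + 1) * N := hm.2.trans (Nat.mul_le_mul_right _ (by omega))
      exact_mod_cast h3) (by
      rw [Pool.Agent.Q319.DR.energy_id]
      have h3 : (N : ℝ) ≤ ((B * N : ℕ) : ℝ) := by exact_mod_cast Nat.le_mul_of_pos_left N hB
      have h4 : (0 : ℝ) ≤ ((B * N : ℕ) : ℝ) := Nat.cast_nonneg _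
      calc ((B * N : ℕ) : ℝ) * N ≤ ((B * N : ℕ) : ℝ) * ((B * N : ℕ) : ℝ) := by gcongr
        _ = _ := by ring) X hX0 hX1 hX2 S hS (fun m hm => ⟨Int.natCast_nonneg m, by
      rw [Int.toNat_natCast]
      obtain ⟨h5, h6, h7⟩ := hSb m hm
      exact fun h => h7 (good_of F G X m h5 h6 h)⟩)
  refine h2.trans ?_
  rw [pow_succ, div_le_div_iff₀ (by positivity) (by positivity)]
  push_cast
  have : 0 ≤ (N : ℝ) * Real.log N ^ V := by positivity
  nlinarith

/-- * Let `0 < θ < 1`. There is `κ₀ > 0` such that for all `A`, `F`, `G`, `W`, `U`, all large `N` and all heights `X`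
  with `N (log X) ^ (G + 6) ≤ X ≤ N (log X) ^ W`, `N ≤ X`, there is a set `E` of real numbers of measure at most
  `N ^ (1 - θ - κ₀)` with the following property. Let `z` be a real number with `N ^ (1 - θ) ≤ z ≤ 2 N ^ (1 - θ)` which
  does not belong to `E`. For all `k ≤ N ^ θ`, with at most `N ^ θ / log ^ U N` exceptions, ALL even integers `d > 0`
  with `|d - k z| ≤ log ^ A N` satisfy: for all `y ≤ X`, all `q ≤ (log X) ^ F` and all `a` with
  `(a, q) = (a + d, q) = 1`, `|π_d(y; a, q) - M_d(y; q)| ≤ X / (log X) ^ G`.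
* For all large `N` let a height `X N` be given with `N (log X N) ^ (G + 6) ≤ X N ≤ N (log X N) ^ W`, `N ≤ X N`, and let
  `b` be a sequence of natural numbers with `b k ≥ exp (k ^ δ)` for all large `k`, where `δ > 0`. For almost every real
  number `α > 0` and all large `k` ALL even integers `d > 0` with `|d - α N| ≤ log ^ A N`, where `N = b k`, have this
  property at the height `X N`. -/
theorem result :
    (∀ θ : ℝ, 0 < θ → θ < 1 → ∃ κ₀ : ℝ, 0 < κ₀ ∧ ∀ A F G W U : ℕ, ∃ N₀ : ℕ, ∀ N : ℕ, N₀ ≤ N →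
      ∀ X : ℕ, Height G W N X → ∃ E : Set ℝ, MeasurableSet E ∧ volume E ≤ ENNReal.ofReal ((N : ℝ) ^ (1 - θ - κ₀)) ∧
        ∀ z : ℝ, (N : ℝ) ^ (1 - θ) ≤ z → z ≤ 2 * (N : ℝ) ^ (1 - θ) → z ∉ E →
          (exceptions ((N : ℝ) ^ θ) z (Real.log N ^ A) (Good F G X) : ℝ) ≤ (N : ℝ) ^ θ / Real.log N ^ U) ∧
    (∀ (A F G W : ℕ) (b X : ℕ → ℕ) (δ : ℝ), 0 < δ → (∀ᶠ k : ℕ in atTop, Real.exp ((k : ℝ) ^ δ) ≤ b k) →
      (∀ᶠ N : ℕ in atTop, Height G W N (X N)) → ∀ᵐ α : ℝ, 0 < α → ∀ᶠ k : ℕ in atTop,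
        ∀ d : ℕ, 0 < d → Even d → |(d : ℝ) - α * b k| ≤ Real.log (b k) ^ A → Good F G (X (b k)) d) := by
  classical
  constructor
  · intro θ hθ hθ1
    obtain ⟨κ₀, hκ₀, h⟩ := Pool.Agent.Q319.DR.mult_one θ hθ hθ1
    refine ⟨κ₀, hκ₀, fun A F G W U => ?_⟩
    obtain ⟨N₀, h0⟩ := h A U
    obtain ⟨N₁, h1⟩ := few 4 F G W (U + A + 2)
    refine ⟨N₀ + N₁, fun N hN X hX => ?_⟩
    obtain ⟨E, hE1, hE2, hE3⟩ := h0 N (by omega) (fun d => 0 < d ∧ Even d ∧ ¬ Good F G X d)
      (fun S hS hSb => h1 N (by omega) X hX S hS hSb)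
    refine ⟨E, hE1, hE2, fun y hy1 hy2 hyE => le_trans ?_ (hE3 y hy1 hy2 hyE)⟩
    unfold exceptions
    apply Nat.cast_le.2
    apply card_le_card
    intro k hk
    rw [mem_filter] at hk ⊢
    obtain ⟨hk1, m, hm0, hm1, hm2, hm3⟩ := hk
    exact ⟨hk1, m, hm2, hm0, hm1, hm3⟩
  · intro A F G W b X δ hδ hb hX
    obtain ⟨N₂, h2⟩ := hX.exists_forall_of_atTop
    have h1 := Pool.Agent.Q319.DR.lac_all (fun N d => 0 < d ∧ Even d ∧ ¬ Good F G (X N) d) (fun B U => by
      obtain ⟨N₁, h1⟩ := few B F G W U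
      exact ⟨N₁ + N₂, fun N hN S hS hSb => h1 N (by omega) (X N) (h2 N (by omega)) S hS hSb⟩) A b δ hδ hb
    filter_upwards [h1] with α hα hα0
    filter_upwards [hα hα0] with k hk d hd0 hd1 hd2
    by_contra hcon
    exact hk d hd2 ⟨hd0, hd1, hcon⟩

end Pool.Agent.Results.MP_92ef0c_nt.DifferencesAtRealMultiples
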