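import Pool.Agent.TH935.DF5
import Pool.Agent.Q56.TF.Near

/-!
# Prime pairs in progressions, uniformly in the modulus, for all differences near almost all members of a real
sequence

The differences `d` are arbitrary even integers with `|d - r m| ≤ log ^ A N`, for almost all `m ≤ x`, where
`r 1, ..., r x` is an arbitrary family of real numbers of nearly minimal energy; for instance the (real) values
`β + κ₀ f m` of a polynomial `f` with integer coefficients, with arbitrary real `κ₀ ≠ 0` and `β`, or of a generalised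
polynomial `f t = ∑ w_y t ^ y` whose largest exponent is greater than `1` and not an integer (`f t = t ^ c`: the
sequences of Piatetski-Shapiro).

From Mathlib: `n.primeFactors`: the set of the prime divisors of `n`; `Polynomial ℤ`, `f.eval m`: polynomials and
their values. The estimate for families of integers is from the starting files (`Pool.Agent.TH935.DF.gd_fam`).
-/

set_option autoImplicit false

namespace Pool.Agent.Results.MP_92ef0c_nt.DifferencesNearRealSequences

open Finset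

open Classical in
/-- The energy of order `p` of the family of real numbers `r 1, ..., r x`: the number of the pairs `v`, `w` of
`p`-tuples of elements of `{1, ..., x}` such that `r (v 1) + ... + r (v p)` and `r (w 1) + ... + r (w p)` differ
by at most `1`. -/
noncomputable def energy (p x : ℕ) (r : ℕ → ℝ) : ℕ :=
  (((Fintype.piFinset fun _ : Fin p => Icc 1 x) ×ˢ (Fintype.piFinset fun _ : Fin p => Icc 1 x)).filter
    (fun q => |∑ i, r (q.1 i) - ∑ i, r (q.2 i)| ≤ 1)).card

/-- The twin prime constant `C₂ = ∏_{p > 2} (1 - 1 / (p - 1) ^ 2)`: the infimum of the decreasing partial products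
over the primes `3 ≤ p ≤ z`. -/
noncomputable def C₂ : ℝ := ⨅ z : ℕ, ∏ p ∈ (Icc 3 z).filter Nat.Prime, (1 - 1 / ((p : ℝ) - 1) ^ 2)

open Classical in
/-- `π_d(y; a, q)`: the number of the primes `p ≤ y` with `p + d ≤ y` prime and `p ≡ a (mod q)`. (For even
`d > 0` such a prime `p` is automatically odd.) -/
noncomputable def pairs (d : ℕ) (y : ℝ) (a q : ℕ) : ℕ :=
  ((range (⌊y⌋₊ + 1)).filter (fun p => p.Prime ∧ (p + d).Prime ∧ (p : ℝ) + d ≤ y ∧ p ≡ a [MOD q])).card

/-- The main term `M_d(y; q)` of the problem. -/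
noncomputable def main (d : ℕ) (y : ℝ) (q : ℕ) : ℝ :=
  2 / (((range q).filter (fun α => Nat.Coprime α q ∧ Nat.Coprime (α + d) q)).card : ℝ) *
    (∏ p ∈ d.primeFactors.filter (fun p => 2 < p), ((p : ℝ) - 1) / ((p : ℝ) - 2)) * C₂ *
    ∫ t in (2 : ℝ)..y, 1 / Real.log t ^ 2

/-- The estimate of the problem for the difference `d` with the bound `X / (log X) ^ G`, for all `y ≤ X`, all moduli
`q ≤ (log X) ^ F` and all admissible classes `a`. -/
def Good (F G X d : ℕ) : Prop :=
  ∀ q a : ℕ, 1 ≤ q → (q : ℝ) ≤ Real.log X ^ F → Nat.Coprime a q → Nat.Coprime (a + d) q →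
    ∀ y : ℝ, 2 ≤ y → y ≤ X → |(pairs d y a q : ℝ) - main d y q| ≤ X / Real.log X ^ G

open Classical in
/-- The number of the `m` in `{1, ..., x}` for which not all even integers `d > 0` at a distance of at most `w` from
`r m` have the property `P`. -/
noncomputable def exceptions (x : ℕ) (r : ℕ → ℝ) (w : ℝ) (P : ℕ → Prop) : ℕ :=
  ((Icc 1 x).filter (fun m => ∃ d : ℕ, 0 < d ∧ Even d ∧ |(d : ℝ) - r m| ≤ w ∧ ¬ P d)).card

/-- The bound at scale `N` for the windows around the `r m`, `m ≤ x`: for every `X` with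
`N (log X) ^ (G + 6) ≤ X ≤ N (log X) ^ W`, for all `m ≤ x` with at most `x / log ^ U N` exceptions all even integers
`d > 0` with `|d - r m| ≤ log ^ A N` are good differences. -/
def Holds (A F G U W N x : ℕ) (r : ℕ → ℝ) : Prop :=
  ∀ X : ℕ, (N : ℝ) * Real.log X ^ (G + 6) ≤ X → (X : ℝ) ≤ N * Real.log X ^ W → N ≤ X →
    (exceptions x r (Real.log N ^ A) (Good F G X) : ℝ) ≤ x / Real.log N ^ U

/-- The sequence `f`, of growth `x ^ e`, has the property at all large scales: for all `x` with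
`N / log ^ C N ≤ x ^ e ≤ B N` and all translates `β + f m`, `|β| ≤ B N`. -/
def Sequence (A B C F G U W : ℕ) (f : ℕ → ℝ) (e : ℝ) : Prop :=
  ∃ N₀ : ℕ, ∀ N : ℕ, N₀ ≤ N → ∀ x : ℕ, (x : ℝ) ^ e ≤ B * N → (N : ℝ) ≤ Real.log N ^ C * (x : ℝ) ^ e →
    ∀ β : ℝ, |β| ≤ B * N → Holds A F G U W N x (fun m => β + f m)

lemma good_of (F G X d : ℕ) (hd0 : 0 < d) (hdev : Even d) (hgood : Pool.Agent.W93.PP.GoodD 0 F G X d) :
    Good F G X d := by
  intro q a hq1 hq2 ha had x hx2 hxX
  have h2 := hgood 0 q a (by simp) hq1 hq2 ha had hdev.two_dvd hd0.ne' x hx2 hxX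
  have e1 : main (d + 0) x q =
      Pool.Agent.H560R3.GB.sing (d + 0) / Pool.Agent.W93.PP.Cnt q (d + 0) * Pool.Agent.W93.PP.Li2 x := by
    unfold main Pool.Agent.H560R3.GB.sing Pool.Agent.W93.PP.Cnt Pool.Agent.W93.PP.Li2
    have e2 : C₂ = Pool.Agent.H560R3.GB.C₂ := rfl
    rw [e2]
    ring
  rw [← e1] at h2
  exact h2

lemma holds_of (A B' F G U W p C' : ℕ) :
    ∃ N₀ : ℕ, ∀ N : ℕ, N₀ ≤ N → ∀ (x : ℕ) (r : ℕ → ℝ), Pool.Agent.Q56.TF.Near A p B' C' N x r →
      Holds A F G U W N x r := by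
  classical
  obtain ⟨N₁, h1⟩ := Pool.Agent.TH935.DF.gd_fam p 0 F G U C' B' W
  refine ⟨N₁, fun N hN x r hm X hX1 hX2 hX0 => ?_⟩
  refine hm.count (fun a : ℤ => 0 ≤ a ∧ ¬ Pool.Agent.W93.PP.GoodD 0 F G X a.toNat) _ ?_ _ (filter_subset _ _) ?_
  · intro s hs hE S hS hSP
    exact h1 N hN x s hs hE X hX0 hX1 hX2 S hS hSP
  · intro m hm
    obtain ⟨_, d, hd0, hd1, hd2, hd3⟩ := mem_filter.1 hm
    exact ⟨(d : ℤ), by exact_mod_cast hd2, Int.natCast_nonneg _,
      by rw [Int.toNat_natCast]; exact fun h => hd3 (good_of F G X d hd0 hd1 h)⟩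

lemma sequence_of {f : ℕ → ℝ} {e : ℝ} (h : Pool.Agent.Q56.TF.Base f e) (he : 1 ≤ e) (A B C F G U W : ℕ) :
    Sequence A B C F G U W f e := by
  obtain ⟨p, B', C', N₀, h1⟩ := Pool.Agent.Q56.TF.near_base h he A B C
  obtain ⟨N₁, h2⟩ := holds_of A B' F G U W p C'
  exact ⟨N₀ + N₁, fun N hN x hx1 hx2 β hβ => h2 N (by omega) x _ (h1 N (by omega) x hx1 hx2 β hβ)⟩

/-- Let `A`, `B`, `C`, `F`, `G`, `U` and `W` be fixed.

* For every `p` the following holds for all large `N`. Let `r 1, ..., r x` be an arbitrary family of real numbers in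
  `[-B N, B N]` with an energy of order `p` of at most `log ^ C N` times `x ^ (2 p) / N` (the minimal possible order
  of magnitude), and let `N (log X) ^ (G + 6) ≤ X ≤ N (log X) ^ W`. For all `m ≤ x` with at most `x / log ^ U N`
  exceptions, ALL even integers `d > 0` with `|d - r m| ≤ log ^ A N` satisfy: for all `y ≤ X`, all `q ≤ (log X) ^ F`
  and all `a` with `(a, q) = (a + d, q) = 1`, `|π_d(y; a, q) - M_d(y; q)| ≤ X / (log X) ^ G`.
* This holds for `r m = β + κ₀ f m`, `m ≤ x`, where `f` is a fixed nonconstant polynomial with integer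
  coefficients, of degree `d`, `κ₀ ≠ 0` is a fixed real number, `β` is any real number with `|β| ≤ B N`, and
  `N / log ^ C N ≤ x ^ d ≤ B N`.
* This holds for `r m = β + ∑ w_y m ^ y` (a sum over a finite set of real exponents `y`), if the largest
  exponent `e` is greater than `1` and not an integer, `w_e ≠ 0`, `|β| ≤ B N` and `N / log ^ C N ≤ x ^ e ≤ B N`; for
  instance for `r m = β + m ^ e`. -/
theorem result (A B C F G U W : ℕ) :
    (∀ p : ℕ, ∃ N₀ : ℕ, ∀ N : ℕ, N₀ ≤ N → ∀ (x : ℕ) (r : ℕ → ℝ), (∀ m ∈ Icc 1 x, |r m| ≤ B * N) →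
      (energy p x r : ℝ) * N ≤ Real.log N ^ C * (x : ℝ) ^ (2 * p) → Holds A F G U W N x r) ∧
    (∀ f : Polynomial ℤ, 1 ≤ f.natDegree → ∀ κ₀ : ℝ, κ₀ ≠ 0 →
      Sequence A B C F G U W (fun m => κ₀ * ((f.eval (m : ℤ) : ℤ) : ℝ)) f.natDegree) ∧
    (∀ (Y : Finset ℝ) (w : ℝ → ℝ) (e : ℝ), e ∈ Y → (∀ y ∈ Y, y ≤ e) → w e ≠ 0 → 1 < e → (∀ k : ℕ, e ≠ k) →
      Sequence A B C F G U W (fun m => ∑ y ∈ Y, w y * (m : ℝ) ^ y) e) := by
  classical
  refine ⟨fun p => ?_, fun f hd κ₀ hκ => ?_, fun Y w e heF hmax hwe he hen => ?_⟩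
  · obtain ⟨B', C', N₀, h1⟩ := Pool.Agent.Q56.TF.near_gen p A B C
    obtain ⟨N₁, h2⟩ := holds_of A B' F G U W p C'
    exact ⟨N₀ + N₁, fun N hN x r hr hE => h2 N (by omega) x _ (h1 N (by omega) x r hr hE)⟩
  · exact sequence_of ((Pool.Agent.Q56.TF.base_poly f hd).dil hκ) (by exact_mod_cast hd) A B C F G U W
  · exact sequence_of (Pool.Agent.Q56.TF.base_gp Y w e heF hmax hwe he hen) he.le A B C F G U W

end Pool.Agent.Results.MP_92ef0c_nt.DifferencesNearRealSequences
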