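import Pool.Agent.Q315.RD2

/-!
# Pairs of almost primes with difference `d` in arithmetic progressions at arguments with restricted digits

Let `g ≥ 2` be a base and `K` a large number of digits. For every `i < K` let `A i` be an arbitrary non-empty set of digits. Nothing
is assumed about these sets except that they are not too small on average: the number `|A 0| ⋯ |A (K - 1)|` of the integers
`t < g ^ K` whose `i`-th digit belongs to `A i` for all `i < K` is at least `exp (- c K) g ^ K`, where `c > 0` does not depend on the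
base (`Rich`; for example, a digit is missing everywhere and the base is large, or the digits at an arbitrary set of at most `c' K`
places are prescribed).

Let `d ≥ 2` be ANY even number, `q ≥ 1` ANY modulus and `a ≥ 1` such that `(a, q) = (a + d, q) = 1`, where `a`, `d` and `q` are at
most `g ^ (E K)`, an arbitrary power of the number `g ^ K` of terms of the progression `a + q t` (so the modulus may be almost as large
as the terms of the progression). The number of the `t < g ^ K` with digits in the sets `A i` for which `m = a + q t` and `m + d` have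
at most `r` prime factors, all larger than `g ^ (K / r)`, is at least `κ V |A 0| ⋯ |A (K - 1)|`, unless there is an obvious
obstruction (no digit `e` in `A 0` such that `a + q e` and `a + q e + d` are prime to `g`); here `V` is the product of `1 - ν (p) / p`
over the primes `p ≤ g ^ K`, where `ν (p)` is the number of the zeros of `(a + q X) (a + q X + d)` modulo `p` (`0` if `p` divides `q`,
otherwise `1` if `p` divides `d`, otherwise `2`), the expected order. The number of the `t` for which `m` and `m + d` are primes (a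
prime pair counted by `π_d(x; a, q)`) is at most `C V |A 0| ⋯ |A (K - 1)|`. The constants are independent of `a`, `d`, `q` and the
sets `A i`.

Proof. The theorem on almost prime values of polynomials at integers with restricted digits, uniform in the polynomial, of the
starting library (`Pool.Agent.Y816.PD.uni_fun`).
-/

set_option autoImplicit false

namespace Pool.Agent.Results.MP_92ef0c_nt.RestrictedDigits

open Filter Finset Polynomial
open Pool.Agent.Q315.RD

/-- The product of `1 - ν / p` over the primes `p ≤ y`, where `ν = 0` if `p` divides `q`, otherwise `ν = 1` if `p` divides `d`, and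
otherwise `ν = 2`. -/
noncomputable def V (q d y : ℕ) : ℝ :=
  ∏ p ∈ (Icc 1 y).filter Nat.Prime, (1 - (if p ∣ q then 0 else if p ∣ d then 1 else 2) / (p : ℝ))

/-- the forms -/
def F (a q d : ℕ) : Fin 2 → ℕ → ℤ := ![fun t => (a : ℤ) + q * t, fun t => (a : ℤ) + q * t + d]

/-- the polynomial -/
noncomputable def Q (a q d : ℕ) : ℤ[X] := (C (q : ℤ) * X + C (a : ℤ)) * (C (q : ℤ) * X + C ((a : ℤ) + d))

lemma F_prod (a q d t : ℕ) : ∏ i, F a q d i t = (Q a q d).eval (t : ℤ) := by
  rw [Fin.prod_univ_two]
  simp only [F, Q, Matrix.cons_val_zero, Matrix.cons_val_one, Matrix.cons_val_fin_one, eval_mul, eval_add, eval_X, eval_C]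
  ring

lemma Q_deg (a q d : ℕ) : (Q a q d).natDegree ≤ 2 := by
  unfold Q
  refine natDegree_mul_le.trans (Nat.add_le_add (b := 1) (d := 1) ?_ ?_) <;> compute_degree

lemma card_roots {a q d p : ℕ} (hp : p.Prime) (h1 : a.Coprime q) (h2 : (a + d).Coprime q) :
    (classes p fun t => (p : ℤ) ∣ ∏ i, F a q d i t) = if p ∣ q then 0 else if p ∣ d then 1 else 2 := by
  classical
  have : Fact p.Prime := ⟨hp⟩
  have key : ∀ t : ℕ, (p : ℤ) ∣ ∏ i, F a q d i t ↔
      ((a : ZMod p) + q * (t : ZMod p)) * ((a : ZMod p) + q * (t : ZMod p) + d) = 0 := by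
    intro t
    rw [Fin.prod_univ_two, ← ZMod.intCast_zmod_eq_zero_iff_dvd]
    simp only [F, Matrix.cons_val_zero, Matrix.cons_val_one, Matrix.cons_val_fin_one]
    push_cast
    rfl
  have h3 : (classes p fun t => (p : ℤ) ∣ ∏ i, F a q d i t) =
      (univ.filter fun x : ZMod p => ((a : ZMod p) + q * x) * ((a : ZMod p) + q * x + d) = 0).card :=
    classes_zmod p _ _ key
  rw [h3]
  have hz : ∀ z : ℕ, ((z : ZMod p) = 0) ↔ p ∣ z := fun z => ZMod.natCast_eq_zero_iff z p
  by_cases hq : p ∣ q
  · rw [if_pos hq, card_eq_zero, filter_eq_empty_iff]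
    intro x _ hx
    rw [(hz q).2 hq, zero_mul, add_zero, mul_eq_zero] at hx
    rcases hx with hx | hx
    · exact hp.one_lt.ne' (Nat.dvd_one.1 (h1 ▸ Nat.dvd_gcd ((hz a).1 hx) hq))
    · have hx' : ((a + d : ℕ) : ZMod p) = 0 := by push_cast; exact hx
      exact hp.one_lt.ne' (Nat.dvd_one.1 (h2 ▸ Nat.dvd_gcd ((hz _).1 hx') hq))
  · rw [if_neg hq]
    have hq0 : (q : ZMod p) ≠ 0 := fun h => hq ((hz q).1 h)
    have h4 : (univ.filter fun x : ZMod p => ((a : ZMod p) + q * x) * ((a : ZMod p) + q * x + d) = 0) =
        {-(a : ZMod p) / q, -((a : ZMod p) + d) / q} := by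
      ext x
      rw [mem_filter, mem_insert, mem_singleton, mul_eq_zero, eq_div_iff hq0, eq_div_iff hq0]
      simp only [mem_univ, true_and]
      constructor
      · rintro (h | h)
        · left
          linear_combination h
        · right
          linear_combination h
      · rintro (h | h)
        · left
          linear_combination h
        · right
          linear_combination h
    rw [h4]
    by_cases hd : p ∣ d
    · rw [if_pos hd, (hz d).2 hd, add_zero, pair_eq_singleton, card_singleton]
    · rw [if_neg hd, card_pair]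
      intro h
      rw [div_left_inj' hq0] at h
      apply hd
      rw [← hz]
      linear_combination h

lemma V_eq {a q d : ℕ} (h1 : a.Coprime q) (h2 : (a + d).Coprime q) (y : ℕ) :
    rootDensity (fun t => ∏ i, F a q d i t) y = V q d y := by
  unfold rootDensity V
  apply prod_congr rfl
  intro p hp
  rw [card_roots (mem_filter.1 hp).2 h1 h2]
  split_ifs <;> simp

lemma adm {a q d : ℕ} (h1 : a.Coprime q) (h2 : (a + d).Coprime q) (hd : Even d) (p : ℕ) (hp : p.Prime) :
    ∃ t : ℕ, ¬ (p : ℤ) ∣ ∏ i, F a q d i t := by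
  classical
  by_contra hcon
  push Not at hcon
  have h3 := card_roots hp h1 h2
  rw [classes_all hcon] at h3
  have := hp.two_le
  split_ifs at h3 with h5 h6
  · omega
  · omega
  · subst h3
    exact h6 hd.two_dvd

/-- **Pairs of almost primes with difference `d` in arithmetic progressions, uniformly in `d`, the modulus and the residue class, at
arguments with restricted digits.** -/
theorem result (E : ℕ) :
    ∃ c : ℝ, 0 < c ∧ ∃ r₀ : ℕ, 2 ≤ r₀ ∧ ∀ r : ℕ, r₀ ≤ r → ∀ g : ℕ, 2 ≤ g → ∃ κ C : ℝ, 0 < κ ∧ 0 < C ∧
      ∀ᶠ K : ℕ in atTop, ∀ a q d : ℕ, Even d → 1 ≤ q → a.Coprime q → (a + d).Coprime q →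
        a ≤ g ^ (E * K) → q ≤ g ^ (E * K) → d ≤ g ^ (E * K) → ∀ A : ℕ → Finset ℕ, Rich c g K A →
        ((∃ e ∈ A 0, (a + q * e).Coprime g ∧ (a + q * e + d).Coprime g) →
          κ * V q d (g ^ K) * choices K A ≤
            count g K A fun t => AlmostPrime (g ^ K) r (a + q * t) ∧ AlmostPrime (g ^ K) r (a + q * t + d)) ∧
        (count g K A (fun t => (a + q * t).Prime ∧ (a + q * t + d).Prime) : ℝ) ≤ C * V q d (g ^ K) * choices K A := by
  obtain ⟨c, hc, r₀, hr₀, h⟩ := formsZ 2 (2 * (E + 3)) (by norm_num)
  refine ⟨c, hc, r₀, hr₀, fun r hr g hg => ?_⟩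
  obtain ⟨κ, C, hκ, hC, h1⟩ := h r hr g hg
  refine ⟨κ, C, hκ, hC, ?_⟩
  filter_upwards [h1, eventually_ge_atTop 1] with K hK hK1
  intro a q d hd hq h2 h3 ha hqE hdE A hA
  have hgK : 2 ≤ g ^ K := (show 2 ≤ g from hg).trans (Nat.le_self_pow (by omega) g)
  have e0 : ∀ t : ℕ, (F a q d 0 t).natAbs = a + q * t := by
    intro t
    have : F a q d 0 t = ((a + q * t : ℕ) : ℤ) := by
      simp [F]
    rw [this, Int.natAbs_natCast]
  have e1 : ∀ t : ℕ, (F a q d 1 t).natAbs = a + q * t + d := by
    intro t
    have : F a q d 1 t = ((a + q * t + d : ℕ) : ℤ) := by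
      simp [F]
    rw [this, Int.natAbs_natCast]
  have hsz : ∀ t < g ^ K, a + q * t + d ≤ g ^ ((E + 3) * K) := by
    intro t ht
    have h5 : 1 ≤ g ^ (E * K) := Nat.one_le_pow _ _ (by omega)
    calc a + q * t + d ≤ g ^ (E * K) + g ^ (E * K) * t + g ^ (E * K) :=
          Nat.add_le_add (Nat.add_le_add ha (Nat.mul_le_mul_right t hqE)) hdE
      _ = g ^ (E * K) * (t + 2) := by ring
      _ ≤ g ^ (E * K) * (g ^ K * g ^ K) := Nat.mul_le_mul_left _ (by nlinarith)
      _ = g ^ ((E + 2) * K) := by rw [← pow_add, ← pow_add]; congr 1; ring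
      _ ≤ g ^ ((E + 3) * K) := Nat.pow_le_pow_right (by omega) (by nlinarith)
  obtain ⟨hlow, hup⟩ := hK 2 (F a q d) ⟨Q a q d, Q_deg _ _ _, fun t => (F_prod a q d t).symm⟩
    (fun p hp => adm h2 h3 hd p hp)
    (fun t _ i => by
      have hqt : t ≤ q * t := Nat.le_mul_of_pos_left t hq
      fin_cases i
      · simp only [Fin.zero_eta]
        rw [e0]
        omega
      · simp only [Fin.mk_one]
        rw [e1]
        omega)
    (fun t ht => by
      rw [Fin.prod_univ_two, e0, e1]
      have h6 := hsz t ht
      calc (a + q * t) * (a + q * t + d) ≤ g ^ ((E + 3) * K) * g ^ ((E + 3) * K) :=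
            Nat.mul_le_mul (by omega) h6
        _ = g ^ (2 * (E + 3) * K) := by rw [← pow_add]; congr 1; ring) A hA
  rw [V_eq h2 h3] at hlow hup
  simp only [Fin.forall_fin_two, e0, e1] at hlow hup
  exact ⟨hlow, hup⟩

end Pool.Agent.Results.MP_92ef0c_nt.RestrictedDigits
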