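import Pool.Agent.Q25.UReg3

/-!
# The laws of the almost prime pairs in arithmetic progressions, uniformly in the difference and in the progression

All even `d ≤ X ^ E`, all moduli `q ≤ X ^ E` and all classes `a ≤ X ^ E` with `(a, q) = (a + d, q) = 1` (the problem has
a fixed `d` and `q ≤ (log x) ^ B`). A number `n` is good if neither `q n + a` nor `q n + a + d` has a prime factor
`≤ X ^ (1/r)`. If `q` does not divide `d`, then in ALL intervals of length at least `X ^ θ` the numbers of the good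
integers in windows follow the Poisson law and the gaps between the good integers are exponentially distributed. For all
`q` almost all elements of an ARBITRARY set of good integers are regular points of this set. All this is uniform in `d`,
`q`, `a` and in the intervals.
-/

set_option autoImplicit false

namespace Pool.Agent.Results.MP_92ef0c_nt.UniformLaws

open Finset
open Pool.Agent.Q25.UReg (Good V count pois PoissonLaw GapLaw N RightOrder ConstantDensity badScales Irregular)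

/-- the coefficients of the forms `q n + a`, `q n + a + d` -/
def co (q : ℕ) : Fin 2 → ℤ := fun _ => (q : ℤ)

/-- the constant terms of the forms `q n + a`, `q n + a + d` -/
def ct (a d : ℕ) : Fin 2 → ℤ := ![(a : ℤ), (a : ℤ) + d]

/-- the pairs of the problem, of height at most `H` -/
structure Pair (H : ℝ) (q a d : ℕ) : Prop where
  even : Even d
  pos : 1 ≤ d
  one_le : 1 ≤ q
  cop : a.Coprime q
  cop' : (a + d).Coprime q
  hd : (a : ℝ) + d ≤ H
  hq : (q : ℝ) ≤ H

lemma Pair.adm {H : ℝ} {q a d : ℕ} (h : Pair H q a d) (p : ℕ) (hp : p.Prime) :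
    ∃ m : ℕ, ∀ i, ¬ (p : ℤ) ∣ co q i * (m : ℤ) + ct a d i := by
  have key : ∀ m : ℕ, ¬ p ∣ q * m + a → ¬ p ∣ q * m + a + d →
      ∀ i, ¬ (p : ℤ) ∣ co q i * (m : ℤ) + ct a d i := by
    intro m h1 h2 i
    fin_cases i
    · change ¬ (p : ℤ) ∣ (q : ℤ) * m + (a : ℤ)
      exact_mod_cast h1
    · change ¬ (p : ℤ) ∣ (q : ℤ) * m + ((a : ℤ) + d)
      rw [← add_assoc]
      exact_mod_cast h2
  by_cases hpq : p ∣ q
  · refine ⟨0, key 0 ?_ ?_⟩
    · rw [mul_zero, zero_add]
      intro h1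
      exact Nat.Prime.not_coprime_iff_dvd.2 ⟨p, hp, h1, hpq⟩ h.cop
    · rw [mul_zero, zero_add]
      intro h1
      exact Nat.Prime.not_coprime_iff_dvd.2 ⟨p, hp, h1, hpq⟩ h.cop'
  · rcases hp.two_le.lt_or_eq with h3 | h3
    · -- three values
      have hu : ∀ c m n : ℕ, m < n → n ≤ 2 → p ∣ q * m + c → p ∣ q * n + c → False := by
        intro c m n hmn hn h1 h2
        have h4 : p ∣ q * (n - m) := by
          have h5 := (Nat.dvd_sub h2 h1)
          rwa [Nat.add_sub_add_right, ← Nat.mul_sub] at h5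
        rcases (hp.dvd_mul).1 h4 with h5 | h5
        · exact hpq h5
        · have := Nat.le_of_dvd (by omega) h5
          omega
      by_contra hcon
      push Not at hcon
      have hbad : ∀ m : ℕ, p ∣ q * m + a ∨ p ∣ q * m + (a + d) := by
        intro m
        by_contra h1
        push Not at h1
        obtain ⟨i, hi⟩ := hcon m
        exact key m h1.1 (by rw [add_assoc]; exact h1.2) i hi
      rcases hbad 0 with h0 | h0 <;> rcases hbad 1 with h1 | h1 <;> rcases hbad 2 with h2 | h2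
      · exact hu a 0 1 (by norm_num) (by norm_num) h0 h1
      · exact hu a 0 1 (by norm_num) (by norm_num) h0 h1
      · exact hu a 0 2 (by norm_num) (by norm_num) h0 h2
      · exact hu (a + d) 1 2 (by norm_num) (by norm_num) h1 h2
      · exact hu a 1 2 (by norm_num) (by norm_num) h1 h2
      · exact hu (a + d) 0 2 (by norm_num) (by norm_num) h0 h2
      · exact hu (a + d) 0 1 (by norm_num) (by norm_num) h0 h1
      · exact hu (a + d) 0 1 (by norm_num) (by norm_num) h0 h1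
    · subst h3
      obtain ⟨d', hd'⟩ := h.even
      rcases Nat.even_or_odd a with ha | ha
      · refine ⟨1, key 1 ?_ ?_⟩
        · obtain ⟨a', ha'⟩ := ha
          omega
        · obtain ⟨a', ha'⟩ := ha
          omega
      · refine ⟨0, key 0 ?_ ?_⟩
        · obtain ⟨a', ha'⟩ := ha
          omega
        · obtain ⟨a', ha'⟩ := ha
          omega

/-- **The laws of the almost prime pairs in arithmetic progressions, uniformly in the difference and in the
progression.** -/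
theorem result (E θ : ℝ) (hE : 0 < E) (hθ : 0 < θ) :
    (∀ (l₀ : ℕ) (x₀ ε : ℝ), 0 < ε → ∃ r₀ : ℕ, ∀ r : ℕ, r₀ ≤ r → ∃ X₀ : ℕ, ∀ X : ℕ, X₀ ≤ X →
      ∀ q a d : ℕ, Pair ((X : ℝ) ^ E) q a d → ¬ q ∣ d → ∀ Z Y : ℕ, (X : ℝ) ^ θ ≤ Y →
          PoissonLaw (co q) (ct a d) r X Z Y x₀ ε ∧ GapLaw (co q) (ct a d) r X Z Y l₀ x₀ ε) ∧
    ∃ r₀ : ℕ, ∀ r : ℕ, r₀ ≤ r → ∀ ε : ℝ, 0 < ε → ∃ c : ℝ, 0 < c ∧ ∀ δ : ℝ, 0 < δ → ∃ B X₀ : ℕ,
      ∀ X : ℕ, X₀ ≤ X → ∀ q a d : ℕ, Pair ((X : ℝ) ^ E) q a d →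
        ∀ u Y : ℕ, (X : ℝ) ^ θ ≤ Y → Y ≤ X → Y ≤ u → ∀ A : Set ℕ, (∀ n ∈ A, Good (co q) (ct a d) r X n) →
          (N (Irregular A (V (co q) (ct a d) r X) c δ B Y) u (u + Y) : ℝ) ≤ ε * (Y * V (co q) (ct a d) r X) := by
  have hpos : ∀ (H : ℝ) (q a d : ℕ), Pair H q a d → ∀ i, 0 < co q i := by
    intro H q a d h i
    unfold co
    exact_mod_cast h.one_le
  have hH : ∀ (H : ℝ) (q a d : ℕ), Pair H q a d → ∀ i, (co q i : ℝ) ≤ H := by
    intro H q a d h i
    unfold co
    push_cast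
    exact h.hq
  have hb : ∀ (H : ℝ) (q a d : ℕ), Pair H q a d → ∀ i, |(ct a d i : ℝ)| ≤ H := by
    intro H q a d h i
    have h0 : (0 : ℝ) ≤ a := Nat.cast_nonneg a
    have h1 : (0 : ℝ) ≤ d := Nat.cast_nonneg d
    have h2 := h.hd
    fin_cases i
    · change |((a : ℤ) : ℝ)| ≤ H
      rw [Int.cast_natCast, abs_of_nonneg h0]
      linarith
    · change |(((a : ℤ) + d : ℤ) : ℝ)| ≤ H
      push_cast
      rw [abs_of_nonneg (by positivity)]
      exact h2
  have hne : ∀ (H : ℝ) (q a d : ℕ), Pair H q a d → ∃ i j, ¬ (co q i = co q j ∧ ct a d i = ct a d j) := by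
    intro H q a d h
    refine ⟨0, 1, fun h1 => ?_⟩
    have h2 : (a : ℤ) = (a : ℤ) + d := h1.2
    have h3 := h.pos
    omega
  constructor
  · intro l₀ x₀ ε hε
    obtain ⟨r₀, _, h⟩ := Pool.Agent.Q25.UReg.lin_laws 2 E 1 θ hE one_pos hθ l₀ x₀ ε hε
    refine ⟨r₀, fun r hr => ?_⟩
    obtain ⟨X₀, hX₀⟩ := Filter.eventually_atTop.1 (h r hr)
    refine ⟨X₀, fun X hX q a d hp hqd Z Y hY => ?_⟩
    refine hX₀ X hX (co q) (ct a d) (hpos _ q a d hp) (hH _ q a d hp) (hb _ q a d hp) hp.adm (hne _ q a d hp) ?_ Z Y hY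
    intro i j t ht _ h2
    have h3 : ct a d i = ct a d j + (q : ℤ) * t := h2.2
    have h4 : (0 : ℤ) < (q : ℤ) * t := mul_pos (by exact_mod_cast hp.one_le) (by exact_mod_cast ht)
    fin_cases i <;> fin_cases j
    · change (a : ℤ) = (a : ℤ) + (q : ℤ) * t at h3
      omega
    · change (a : ℤ) = (a : ℤ) + d + (q : ℤ) * t at h3
      omega
    · change (a : ℤ) + d = (a : ℤ) + (q : ℤ) * t at h3
      apply hqd
      refine ⟨t, ?_⟩
      have : (d : ℤ) = (q : ℤ) * t := by omega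
      exact_mod_cast this
    · change (a : ℤ) + d = (a : ℤ) + d + (q : ℤ) * t at h3
      omega
  · obtain ⟨r₀, _, h⟩ := Pool.Agent.Q25.UReg.lin_reg 2 E θ hE hθ
    refine ⟨r₀, fun r hr ε hε => ?_⟩
    obtain ⟨c, hc, h1⟩ := h r hr ε hε
    refine ⟨c, hc, fun δ hδ => ?_⟩
    obtain ⟨B, hB⟩ := h1 δ hδ
    obtain ⟨X₀, hX₀⟩ := Filter.eventually_atTop.1 hB
    exact ⟨B, X₀, fun X hX q a d hp u Y hXY hYX hYu A hA =>
      hX₀ X hX (co q) (ct a d) (hpos _ q a d hp) (hH _ q a d hp) (hb _ q a d hp) hp.adm (hne _ q a d hp)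
        u Y hXY hYX hYu A hA⟩

end Pool.Agent.Results.MP_92ef0c_nt.UniformLaws
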